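import Pool.Agent.Helper29.AR.Props
import Pool.Agent.Helper19.RC.Cross

/-!
# MP_b55b7c_an: the crossed product by a finite group exists (packet AR-CrossEx)
-/

open scoped ENNReal NNReal InnerProductSpace ComplexOrder
open Filter Topology

attribute [-instance] CStarMatrix.instAlgebra CStarMatrix.instModule CStarMatrix.instSMul
  CStarMatrix.instMulAction CStarMatrix.instDistribMulAction

noncomputable section
namespace RC
universe u

namespace H15Cross
open H19Cross

section
variable {A : Type u} [CStarAlgebra A] [PartialOrder A] [StarOrderedRing A]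
  {G : Type} [Group G] [Fintype G] [DecidableEq G]

/-- The diagonal matrix of `a`. -/
def km (α : G → A ≃⋆ₐ[ℂ] A) (a : A) : CStarMatrix G G A :=
  CStarMatrix.ofMatrix (Matrix.of fun i l => if i = l then α i⁻¹ a else 0)

theorem km_apply (α : G → A ≃⋆ₐ[ℂ] A) (a : A) (i l : G) :
    km α a i l = if i = l then α i⁻¹ a else 0 := rfl

/-- The permutation matrix of `s`. -/
def wm (A : Type u) [CStarAlgebra A] (s : G) : CStarMatrix G G A :=
  CStarMatrix.ofMatrix (Matrix.of fun i l => if l = s⁻¹ * i then 1 else 0)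

theorem wm_apply (s i l : G) : wm A s i l = if l = s⁻¹ * i then 1 else 0 := rfl

theorem km_mul (α : G → A ≃⋆ₐ[ℂ] A) (a b : A) : km α (a * b) = km α a * km α b := by
  apply cm_ext
  intro i l
  rw [CStarMatrix.mul_apply, Finset.sum_eq_single i]
  · rw [km_apply, km_apply, km_apply, if_pos rfl]
    by_cases h : i = l
    · rw [if_pos h, if_pos h, map_mul]
    · rw [if_neg h, if_neg h, mul_zero]
  · intro m _ hm
    rw [km_apply, if_neg (Ne.symm hm), zero_mul]
  · intro h
    exact absurd (Finset.mem_univ _) h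

theorem km_one (α : G → A ≃⋆ₐ[ℂ] A) : km α 1 = 1 := by
  apply cm_ext
  intro i l
  rw [km_apply]
  by_cases h : i = l
  · subst h
    rw [if_pos rfl, map_one, CStarMatrix.one_apply_eq]
  · rw [if_neg h, CStarMatrix.one_apply_ne h]

theorem km_add (α : G → A ≃⋆ₐ[ℂ] A) (a b : A) : km α (a + b) = km α a + km α b := by
  apply cm_ext
  intro i l
  show km α (a + b) i l = km α a i l + km α b i l
  rw [km_apply, km_apply, km_apply]
  by_cases h : i = l
  · rw [if_pos h, if_pos h, if_pos h, map_add]
  · rw [if_neg h, if_neg h, if_neg h, add_zero]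

theorem km_smul (α : G → A ≃⋆ₐ[ℂ] A) (c : ℂ) (a : A) : km α (c • a) = c • km α a := by
  apply cm_ext
  intro i l
  show km α (c • a) i l = c • km α a i l
  rw [km_apply, km_apply]
  by_cases h : i = l
  · rw [if_pos h, if_pos h, map_smul]
  · rw [if_neg h, if_neg h, smul_zero]

theorem km_star (α : G → A ≃⋆ₐ[ℂ] A) (a : A) : km α (star a) = star (km α a) := by
  apply cm_ext
  intro i l
  show km α (star a) i l = star (km α a l i)
  rw [km_apply, km_apply]
  by_cases h : i = l
  · subst h
    rw [if_pos rfl, if_pos rfl, map_star]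
  · rw [if_neg h, if_neg (Ne.symm h), star_zero]

/-- The homomorphism `km`. -/
def kh (α : G → A ≃⋆ₐ[ℂ] A) : A →⋆ₐ[ℂ] CStarMatrix G G A where
  toFun := km α
  map_one' := km_one α
  map_mul' := km_mul α
  map_zero' := by
    have := km_smul α 0 (0 : A)
    rwa [zero_smul, zero_smul] at this
  map_add' := km_add α
  commutes' := fun c => by
    rw [Algebra.algebraMap_eq_smul_one, km_smul, km_one, Algebra.algebraMap_eq_smul_one]
  map_star' := km_star α

theorem kh_apply (α : G → A ≃⋆ₐ[ℂ] A) (a : A) : kh α a = km α a := rfl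

theorem wm_mul (s t : G) : wm A (s * t) = wm A s * wm A t := by
  apply cm_ext
  intro i l
  rw [CStarMatrix.mul_apply, Finset.sum_eq_single (s⁻¹ * i)]
  · rw [wm_apply, wm_apply, wm_apply, if_pos rfl, one_mul, mul_inv_rev, mul_assoc]
  · intro m _ hm
    rw [wm_apply, if_neg hm, zero_mul]
  · intro h
    exact absurd (Finset.mem_univ _) h

theorem wm_one : wm A (1 : G) = 1 := by
  apply cm_ext
  intro i l
  rw [wm_apply, inv_one, one_mul]
  by_cases h : i = l
  · subst h
    rw [if_pos rfl, CStarMatrix.one_apply_eq]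
  · rw [if_neg (Ne.symm h), CStarMatrix.one_apply_ne h]

theorem wm_star (s : G) : star (wm A s) = wm A s⁻¹ := by
  apply cm_ext
  intro i l
  show star (wm A s l i) = wm A s⁻¹ i l
  rw [wm_apply, wm_apply, inv_inv]
  by_cases h : i = s⁻¹ * l
  · rw [if_pos h, if_pos (by rw [h, mul_inv_cancel_left]), star_one]
  · rw [if_neg h, if_neg (fun h' => h (by rw [h', inv_mul_cancel_left])), star_zero]

/-- Entries of `k a w_g`. -/
theorem km_mul_wm (α : G → A ≃⋆ₐ[ℂ] A) (a : A) (g i l : G) :
    (km α a * wm A g) i l = if l = g⁻¹ * i then α i⁻¹ a else 0 := by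
  rw [CStarMatrix.mul_apply, Finset.sum_eq_single i]
  · rw [km_apply, if_pos rfl, wm_apply]
    by_cases h : l = g⁻¹ * i
    · rw [if_pos h, if_pos h, mul_one]
    · rw [if_neg h, if_neg h, mul_zero]
  · intro m _ hm
    rw [km_apply, if_neg (Ne.symm hm), zero_mul]
  · intro h
    exact absurd (Finset.mem_univ _) h

theorem wm_mul_km {α : G → A ≃⋆ₐ[ℂ] A} (ha : IsAct α) (g : G) (a : A) :
    wm A g * km α a = km α (α g a) * wm A g := by
  apply cm_ext
  intro i l
  rw [km_mul_wm, CStarMatrix.mul_apply, Finset.sum_eq_single (g⁻¹ * i)]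
  · rw [wm_apply, if_pos rfl, one_mul, km_apply]
    by_cases h : l = g⁻¹ * i
    · rw [if_pos h.symm, if_pos h, ← ha, mul_inv_rev, inv_inv]
    · rw [if_neg (Ne.symm h), if_neg h]
  · intro m _ hm
    rw [wm_apply, if_neg hm, zero_mul]
  · intro h
    exact absurd (Finset.mem_univ _) h

theorem sum_apply' {ι : Type} (s : Finset ι) (f : ι → CStarMatrix G G A) (i l : G) :
    (∑ x ∈ s, f x) i l = ∑ x ∈ s, f x i l := by
  classical
  induction s using Finset.induction_on with
  | empty => rfl
  | insert a s ha ih =>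
    rw [Finset.sum_insert ha, Finset.sum_insert ha, ← ih]
    rfl

theorem sum_entry (α : G → A ≃⋆ₐ[ℂ] A) (f : G → A) (i l : G) :
    (∑ g, km α (f g) * wm A g) i l = α i⁻¹ (f (i * l⁻¹)) := by
  rw [sum_apply', Finset.sum_eq_single (i * l⁻¹)]
  · rw [km_mul_wm, if_pos (by rw [mul_inv_rev, inv_inv, inv_mul_cancel_right])]
  · intro g _ hg
    rw [km_mul_wm, if_neg]
    intro h
    exact hg (by rw [h, mul_inv_rev, inv_inv, mul_inv_cancel_left])
  · intro h
    exact absurd (Finset.mem_univ _) h

theorem be_km {α : G → A ≃⋆ₐ[ℂ] A} (ha : IsAct α) (g : G) (a : A) :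
    be ha g (km α a) = km α a := by
  apply cm_ext
  intro i l
  rw [be_apply, bf_apply, km_apply, km_apply]
  by_cases h : i = l
  · rw [if_pos (by rw [h]), if_pos h, ← ha, mul_inv_rev, mul_inv_cancel_left]
  · rw [if_neg (fun h' => h (mul_right_cancel h')), if_neg h, map_zero]

theorem be_wm {α : G → A ≃⋆ₐ[ℂ] A} (ha : IsAct α) (g s : G) :
    be ha g (wm A s) = wm A s := by
  apply cm_ext
  intro i l
  rw [be_apply, bf_apply, wm_apply, wm_apply]
  by_cases h : l = s⁻¹ * i
  · rw [if_pos (by rw [h, mul_assoc]), if_pos h, map_one]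
  · rw [if_neg (fun h' => h (mul_right_cancel (by rw [h', mul_assoc]))), if_neg h, map_zero]

/-- The fixed point algebra of `β`. -/
def FS {α : G → A ≃⋆ₐ[ℂ] A} (ha : IsAct α) : StarSubalgebra ℂ (CStarMatrix G G A) where
  carrier := {T | ∀ g, be ha g T = T}
  mul_mem' := fun {a b} h1 h2 g => by rw [map_mul, h1 g, h2 g]
  add_mem' := fun {a b} h1 h2 g => by rw [map_add, h1 g, h2 g]
  algebraMap_mem' := fun c g => by
    rw [Algebra.algebraMap_eq_smul_one, map_smul, map_one]
  star_mem' := fun {a} h g => by rw [map_star, h g]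

theorem mem_FS {α : G → A ≃⋆ₐ[ℂ] A} (ha : IsAct α) (T : CStarMatrix G G A) :
    T ∈ FS ha ↔ ∀ g, be ha g T = T := Iff.rfl

theorem isClosed_FS {α : G → A ≃⋆ₐ[ℂ] A} (ha : IsAct α) :
    IsClosed (FS ha : Set (CStarMatrix G G A)) := by
  have h : (FS ha : Set (CStarMatrix G G A)) = ⋂ g, {T | be ha g T = T} := by
    ext T
    simp only [SetLike.mem_coe, mem_FS, Set.mem_iInter, Set.mem_setOf_eq]
  rw [h]
  refine isClosed_iInter fun g => isClosed_eq ?_ continuous_id
  exact (StarAlgEquiv.isometry (be ha g)).continuous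

theorem FS_eq {α : G → A ≃⋆ₐ[ℂ] A} (ha : IsAct α) {T : CStarMatrix G G A} (hT : T ∈ FS ha) :
    T = ∑ g, km α (T 1 g⁻¹) * wm A g := by
  apply cm_ext
  intro i l
  rw [sum_entry α (fun g => T 1 g⁻¹)]
  have h := hT i⁻¹
  have h1 : be ha i⁻¹ T i l = T i l := by rw [h]
  rw [← h1, be_apply, bf_apply, mul_inv_cancel, mul_inv_rev, inv_inv]

end
end H15Cross

open H19Cross H15Cross in
/-- The crossed product exists. -/
theorem crossExP : CrossExP.{u} := by
  classical
  intro A _ _ _ G _ _ α ha
  haveI hcl : IsClosed (FS ha : Set (CStarMatrix G G A)) := isClosed_FS ha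
  let k : A →⋆ₐ[ℂ] FS ha := StarAlgHom.codRestrict (kh α) (FS ha) (fun a g => be_km ha g a)
  let w : G → FS ha := fun s => ⟨wm A s, fun g => be_wm ha g s⟩
  refine ⟨FS ha, StarSubalgebra.cstarAlgebra (FS ha), CStarAlgebra.spectralOrder _,
    CStarAlgebra.spectralOrderedRing _, k, w, ?_, ?_, ?_, ?_⟩
  · intro g
    rw [Unitary.mem_iff]
    constructor
    · apply Subtype.ext
      show star (wm A g) * wm A g = 1
      rw [wm_star, ← wm_mul, inv_mul_cancel, wm_one]
    · apply Subtype.ext
      show wm A g * star (wm A g) = 1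
      rw [wm_star, ← wm_mul, mul_inv_cancel, wm_one]
  · intro g h
    apply Subtype.ext
    exact wm_mul g h
  · intro g a
    apply Subtype.ext
    show wm A g * km α a * star (wm A g) = km α (α g a)
    rw [wm_mul_km ha, mul_assoc, wm_star, ← wm_mul, mul_inv_cancel, wm_one, mul_one]
  · rintro ⟨T, hT⟩
    have hcoe : ∀ f : G → A, ((∑ g, k (f g) * w g : FS ha) : CStarMatrix G G A) =
        ∑ g, km α (f g) * wm A g := by
      intro f
      have := map_sum (FS ha).subtype (fun g => k (f g) * w g) Finset.univ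
      exact this
    refine ⟨fun g => T 1 g⁻¹, ?_, ?_⟩
    · apply Subtype.ext
      refine Eq.trans ?_ (hcoe _).symm
      exact FS_eq ha hT
    · intro f hf
      have h1 : T = ∑ g, km α (f g) * wm A g := by
        rw [← hcoe f]
        exact congrArg Subtype.val hf
      funext g
      rw [h1, sum_entry]
      rw [inv_one, act_one ha, one_mul, inv_inv]

end RC
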